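import Pool.Agent.Helper2.EL.Irr

/-!
Project CF/EL (MP_b8862a_ag), block EL-9a: a pair of Frobenius elements gives potential absolute irreducibility.
-/

open Matrix

namespace MH

variable {n : Type*} [Fintype n] [DecidableEq n] {F : Type*} [Field F]

/-- A matrix with irreducible characteristic polynomial has no invariant subspace. -/
private lemma top_of_charpoly_irreducible {A : Matrix n n F} (hA : Irreducible A.charpoly)
    {W : Submodule F (n → F)} (hW : ∀ w ∈ W, A *ᵥ w ∈ W) {w : n → F} (hw : w ∈ W) (hw0 : w ≠ 0) :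
    W = ⊤ := by
  classical
  set f : Module.End F (n → F) := Matrix.toLin' A with hf
  have hfA : ∀ u, f u = A *ᵥ u := fun u => Matrix.toLin'_apply A u
  have hpow : ∀ k : ℕ, (f ^ k) w ∈ W := by
    intro k
    induction k with
    | zero => simpa using hw
    | succ k ih =>
      rw [pow_succ', Module.End.mul_apply, hfA]
      exact hW _ ih
  have hmem : ∀ p : Polynomial F, Polynomial.aeval f p w ∈ W := by
    intro p
    induction p using Polynomial.induction_on' with
    | add p q hp hq =>
      rw [map_add, LinearMap.add_apply]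
      exact W.add_mem hp hq
    | monomial k c =>
      rw [Polynomial.aeval_monomial, Module.End.mul_apply, Module.algebraMap_end_apply]
      exact W.smul_mem _ (hpow k)
  have hχ : Polynomial.aeval f A.charpoly = 0 := by
    have h1 := LinearMap.aeval_self_charpoly f
    rwa [hf, Matrix.charpoly_toLin'] at h1
  let Φ : Polynomial.degreeLT F (Fintype.card n) →ₗ[F] (n → F) :=
    (LinearMap.applyₗ w) ∘ₗ (Polynomial.aeval f).toLinearMap ∘ₗ (Submodule.subtype _)
  have hΦ : ∀ p, Φ p = Polynomial.aeval f (p : Polynomial F) w := fun p => rfl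
  have hinj : Function.Injective Φ := by
    rw [← LinearMap.ker_eq_bot, LinearMap.ker_eq_bot']
    rintro ⟨p, hp⟩ h0
    rw [hΦ] at h0
    change Polynomial.aeval f p w = 0 at h0
    apply Subtype.ext
    change p = 0
    by_contra hp0
    rw [Polynomial.mem_degreeLT] at hp
    have hnd : ¬ A.charpoly ∣ p := by
      intro hd
      have h1 := Polynomial.degree_le_of_dvd hd hp0
      rw [Matrix.charpoly_degree_eq_dim] at h1
      exact absurd hp (not_lt.mpr h1)
    obtain ⟨u, v, huv⟩ := (hA.coprime_iff_not_dvd.mpr hnd)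
    apply hw0
    have h1 : Polynomial.aeval f (u * A.charpoly + v * p) w = w := by
      rw [huv, map_one, Module.End.one_apply]
    rw [map_add, map_mul, map_mul, hχ, mul_zero, zero_add, Module.End.mul_apply, h0, map_zero] at h1
    exact h1.symm
  have hrange : LinearMap.range Φ ≤ W := by
    rintro _ ⟨p, rfl⟩
    rw [hΦ]
    exact hmem _
  have hfin : Module.finrank F (Polynomial.degreeLT F (Fintype.card n)) = Fintype.card n := by
    rw [(Polynomial.degreeLTEquiv F (Fintype.card n)).finrank_eq, Module.finrank_fin_fun]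
  have h2 : Module.finrank F (n → F) ≤ Module.finrank F W := by
    rw [Module.finrank_fintype_fun_eq_card, ← hfin, ← LinearMap.finrank_range_of_inj hinj]
    exact Submodule.finrank_mono hrange
  exact Submodule.eq_top_of_finrank_eq (le_antisymm (Submodule.finrank_le _) h2)

theorem potIrr_of_frobPair {Γ : Subgroup (GL n F)} (h : HasFrobPair Γ) : PotIrr Γ := by
  classical
  intro Γ' hle hidx
  obtain ⟨⟨g, hg, hirr⟩, ⟨g', hg', hsim⟩⟩ := h
  have hW : ∀ W : Submodule F (n → F), (∀ g ∈ Γ', ∀ w ∈ W, (g : Matrix n n F) *ᵥ w ∈ W) →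
      W = ⊥ ∨ W = ⊤ := by
    intro W hW
    by_cases h0 : W = ⊥
    · exact Or.inl h0
    · right
      obtain ⟨w, hw, hw0⟩ := Submodule.exists_mem_ne_zero_of_ne_bot h0
      obtain ⟨N, hN, -, hgN⟩ := Subgroup.exists_pow_mem_of_relIndex_ne_zero hidx hg
      refine top_of_charpoly_irreducible (hirr N hN) (fun w hw => ?_) hw hw0
      have h1 := hW _ hgN.1 w hw
      rwa [Units.val_pow_eq_pow_val] at h1
  refine ⟨hW, fun T hT => ?_⟩
  obtain ⟨N, hN, -, hgN⟩ := Subgroup.exists_pow_mem_of_relIndex_ne_zero hidx hg'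
  obtain ⟨c, hc⟩ := hsim N hN
  set A : Matrix n n F := (g' : Matrix n n F) ^ N with hAdef
  have hAT : A * T = T * A := by
    have h1 := hT _ hgN.1
    rwa [Units.val_pow_eq_pow_val] at h1
  set f : Module.End F (n → F) := Matrix.toLin' A with hf
  have hcomm : Commute f (Matrix.toLin' T) := by
    rw [hf, Commute, SemiconjBy]
    have h1 := congrArg Matrix.toLin' hAT
    rw [Matrix.toLin'_mul, Matrix.toLin'_mul] at h1
    exact h1
  have hfr : Module.finrank F (f.maxGenEigenspace c) = 1 := by
    rw [LinearMap.finrank_maxGenEigenspace_eq, hf, Matrix.charpoly_toLin', hc]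
  obtain ⟨⟨v, hv⟩, hv0, hspan⟩ := finrank_eq_one_iff'.mp hfr
  have hTv : Matrix.toLin' T v ∈ f.maxGenEigenspace c :=
    Module.End.mapsTo_maxGenEigenspace_of_comm hcomm c hv
  obtain ⟨d, hd⟩ := hspan ⟨_, hTv⟩
  have hd' : T *ᵥ v = d • v := by
    have h1 := congrArg Subtype.val hd
    rw [← Matrix.toLin'_apply]
    exact h1.symm
  have hv0' : v ≠ 0 := fun h => hv0 (Subtype.ext h)
  let W : Submodule F (n → F) :=
    { carrier := {u | T *ᵥ u = d • u}
      add_mem' := by
        intro a b ha hb
        simp only [Set.mem_ofPred_eq] at *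
        rw [Matrix.mulVec_add, ha, hb, smul_add]
      zero_mem' := by simp
      smul_mem' := by
        intro k a ha
        simp only [Set.mem_ofPred_eq] at *
        rw [Matrix.mulVec_smul, ha, smul_comm] }
  have hWmem : ∀ u, u ∈ W ↔ T *ᵥ u = d • u := fun u => Iff.rfl
  have hWstab : ∀ g ∈ Γ', ∀ w ∈ W, (g : Matrix n n F) *ᵥ w ∈ W := by
    intro g hg w hw
    rw [hWmem] at hw ⊢
    rw [Matrix.mulVec_mulVec, ← hT g hg, ← Matrix.mulVec_mulVec, hw, Matrix.mulVec_smul]
  have hWtop : W = ⊤ := by
    rcases hW W hWstab with h | h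
    · exfalso
      have h1 : v ∈ W := hd'
      rw [h, Submodule.mem_bot] at h1
      exact hv0' h1
    · exact h
  refine ⟨d, ?_⟩
  apply Matrix.toLin'.injective
  refine LinearMap.ext fun u => ?_
  have h1 : u ∈ W := by rw [hWtop]; trivial
  rw [Matrix.toLin'_apply, Matrix.toLin'_apply, Matrix.smul_mulVec, Matrix.one_mulVec]
  exact h1

end MH
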